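import Mathlib
import Pool.Agent.V11174.BitPoly
import Pool.Agent.V11174.Folding

/-! # MP_2c8f22_co: the folding conjecture fails for (5, 117; 3, 4). -/

open Polynomial

namespace Pool.Agent.Results.MP_2c8f22_co.FoldingDisproof

open Pool.Agent.V11174.BitPoly Pool.Agent.V11174.Folding

/-- Irreducibility and exponent from certificates. -/
theorem irreducible_and_order (f : ℕ) (hmonic : (P f).Monic) (hdeg : (P f).natDegree = 12)
    (h585 : (step f 12)^[585] 1 = 1)
    (u1 u2 u3 : ℕ)
    (h1 : mulm f 12 12 u1 ((step f 12)^[195] 1 ^^^ 1) = 1)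
    (h2 : mulm f 12 12 u2 ((step f 12)^[117] 1 ^^^ 1) = 1)
    (h3 : mulm f 12 12 u3 ((step f 12)^[45] 1 ^^^ 1) = 1)
    (b1 : (step f 12)^[195] 1 ^^^ 1 < 2 ^ 12)
    (b2 : (step f 12)^[117] 1 ^^^ 1 < 2 ^ 12)
    (b3 : (step f 12)^[45] 1 ^^^ 1 < 2 ^ 12) :
    Irreducible (P f) ∧ ∀ m, P f ∣ X ^ m - 1 ↔ 585 ∣ m := by
  -- order of the image of `X` in any nontrivial ring killing `P f`
  have key : ∀ {R : Type} [CommRing R] [Nontrivial R] (φ : (ZMod 2)[X] →+* R),
      φ (P f) = 0 → orderOf (φ X) = 585 := by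
    intro R _ _ φ hφ
    have e0 : φ X ^ 585 = 1 := by
      rw [← iter_one_spec φ hφ, h585, P_one, map_one]
    have two : ∀ x : R, x = 1 → φ (P 1) + x = 0 := by
      intro x hx
      rw [hx, P_one, ← map_one φ, ← map_add, two_eq_zero', map_zero]
    have aux : ∀ k u, mulm f 12 12 u ((step f 12)^[k] 1 ^^^ 1) = 1 →
        (step f 12)^[k] 1 ^^^ 1 < 2 ^ 12 → φ X ^ k ≠ 1 := by
      intro k u hu hb hk
      have := mulm_spec (d := 12) φ hφ 12 u _ hb
      rw [hu, P_one, map_one, P_xor, map_add, iter_one_spec φ hφ, add_comm (φ X ^ k),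
        two _ hk, mul_zero] at this
      exact one_ne_zero this
    have n1 := aux 195 u1 h1 b1
    have n2 := aux 117 u2 h2 b2
    have n3 := aux 45 u3 h3 b3
    refine orderOf_eq_of_pow_and_pow_div_prime (by norm_num) e0 ?_
    intro p hp hpd
    have hp' : p ∈ Nat.primeFactors 585 := Nat.mem_primeFactors.2 ⟨hp, hpd, by norm_num⟩
    have hpf : Nat.primeFactors 585 = {3, 5, 13} := by decide +kernel
    rw [hpf] at hp'
    simp only [Finset.mem_insert, Finset.mem_singleton] at hp'
    rcases hp' with rfl | rfl | rfl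
    · exact n1
    · exact n2
    · exact n3
  have hne : P f ≠ 0 := hmonic.ne_zero
  constructor
  · -- irreducibility
    obtain ⟨g, hg, hgf⟩ := exists_irreducible_of_natDegree_pos (f := P f) (by omega)
    have : Fact (Irreducible g) := ⟨hg⟩
    have hord : orderOf (AdjoinRoot.mk g X) = 585 :=
      key (AdjoinRoot.mk g) (AdjoinRoot.mk_eq_zero.2 hgf)
    have hg0 : g ≠ 0 := hg.ne_zero
    have hcard : Nat.card (AdjoinRoot g) = 2 ^ g.natDegree := by
      let pb := AdjoinRoot.powerBasis hg0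
      have hfin : Module.Finite (ZMod 2) (AdjoinRoot g) := pb.finite
      have h1 := Module.natCard_eq_pow_finrank (K := ZMod 2) (V := AdjoinRoot g)
      rw [Nat.card_zmod, pb.finrank, AdjoinRoot.powerBasis_dim] at h1
      exact h1
    have : Finite (AdjoinRoot g) := Nat.finite_of_card_ne_zero (by rw [hcard]; positivity)
    have hx0 : AdjoinRoot.mk g X ≠ 0 := by
      intro h0
      rw [h0] at hord
      have h585' := pow_orderOf_eq_one (0 : AdjoinRoot g)
      rw [hord] at h585'
      norm_num at h585'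
    have hpow : AdjoinRoot.mk g X ^ (2 ^ g.natDegree - 1) = 1 := by
      have := Fintype.ofFinite (AdjoinRoot g)
      have := FiniteField.pow_card_sub_one_eq_one (AdjoinRoot.mk g X) hx0
      rwa [← Nat.card_eq_fintype_card, hcard] at this
    have hdvd : 585 ∣ 2 ^ g.natDegree - 1 := by
      rw [← hord]; exact orderOf_dvd_of_pow_eq_one hpow
    have hle : g.natDegree ≤ 12 := by
      rw [← hdeg]; exact natDegree_le_of_dvd hgf hne
    have hpos : 0 < g.natDegree := hg.natDegree_pos
    have heq : g.natDegree = 12 := by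
      interval_cases hgd : g.natDegree <;> first | rfl | (exfalso; revert hdvd; decide)
    obtain ⟨q, hq⟩ := hgf
    have hq0 : q ≠ 0 := by rintro rfl; rw [mul_zero] at hq; exact hne hq
    have hqd : q.natDegree = 0 := by
      have := congrArg natDegree hq
      rw [natDegree_mul hg0 hq0, hdeg, heq] at this
      omega
    have hqu : IsUnit q := by
      rw [eq_C_of_natDegree_eq_zero hqd]
      apply isUnit_C.2
      rw [isUnit_iff_ne_zero]
      intro h0
      apply hq0
      rw [eq_C_of_natDegree_eq_zero hqd, h0, C_0]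
    rw [hq]
    exact (irreducible_mul_isUnit hqu).2 hg
  · intro m
    have hnt : Nontrivial (AdjoinRoot (P f)) :=
      AdjoinRoot.nontrivial _ (by
        rw [degree_eq_natDegree hne, hdeg]; norm_num)
    have hord : orderOf (AdjoinRoot.mk (P f) X) = 585 :=
      key (AdjoinRoot.mk (P f)) (AdjoinRoot.mk_eq_zero.2 dvd_rfl)
    rw [← hord, orderOf_dvd_iff_pow_eq_one, ← AdjoinRoot.mk_eq_zero, map_sub, map_pow, map_one,
      sub_eq_zero]

/-- The folding of a sequence into a `5 × 117` array. -/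
def foldArr (s : ℕ → ZMod 2) : Arr 5 117 := fun a b => s (351 * a.val + 235 * b.val)

theorem fold_cast {s : ℕ → ZMod 2} (hs : ∀ i, s (i + 585) = s i) (m : ℕ) :
    foldArr s (m : ZMod 5) (m : ZMod 117) = s m := by
  unfold foldArr
  rw [ZMod.val_natCast, ZMod.val_natCast]
  apply periodic_congr hs
  omega

theorem exists_cast (u : ZMod 5) (v : ZMod 117) :
    ∃ m : ℕ, m < 585 ∧ (m : ZMod 5) = u ∧ (m : ZMod 117) = v := by
  have hu := ZMod.val_lt u
  have hv := ZMod.val_lt v
  refine ⟨(351 * u.val + 235 * v.val) % 585, Nat.mod_lt _ (by norm_num), ?_, ?_⟩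
  · rw [← ZMod.natCast_zmod_val u, ZMod.natCast_eq_natCast_iff', ZMod.natCast_zmod_val]
    omega
  · rw [← ZMod.natCast_zmod_val v, ZMod.natCast_eq_natCast_iff', ZMod.natCast_zmod_val]
    omega

theorem cast_congr {m n : ℕ} (h5 : (m : ZMod 5) = n) (h117 : (m : ZMod 117) = n) :
    m % 585 = n % 585 := by
  rw [ZMod.natCast_eq_natCast_iff'] at h5 h117
  omega

theorem fold_injective {s t : ℕ → ZMod 2} (hs : ∀ i, s (i + 585) = s i)
    (ht : ∀ i, t (i + 585) = t i) (h : foldArr s = foldArr t) : s = t := by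
  funext m
  rw [← fold_cast hs m, ← fold_cast ht m, h]

theorem isFold_iff {s : ℕ → ZMod 2} (hs : ∀ i, s (i + 585) = s i) (A : Arr 5 117) :
    IsFold 5 117 s A ↔ A = foldArr s := by
  constructor
  · intro h
    funext u v
    obtain ⟨m, hm, rfl, rfl⟩ := exists_cast u v
    rw [fold_cast hs]
    exact h m hm
  · rintro rfl i _
    exact fold_cast hs i

theorem shift_fold {s : ℕ → ZMod 2} (hs : ∀ i, s (i + 585) = s i) (m : ℕ) :
    shift (foldArr s) (m : ZMod 5) (m : ZMod 117) = foldArr (fun i => s (i + m)) := by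
  funext u v
  obtain ⟨n, _, rfl, rfl⟩ := exists_cast u v
  rw [fold_cast (s := fun i => s (i + m)) (fun i => by
    rw [show i + 585 + m = (i + m) + 585 by omega, hs])]
  show foldArr s _ _ = _
  rw [← Nat.cast_add, ← Nat.cast_add, fold_cast hs]

theorem window_fold {s : ℕ → ZMod 2} (hs : ∀ i, s (i + 585) = s i) (n₁ n₂ m : ℕ) :
    window n₁ n₂ (foldArr s) (m : ZMod 5) (m : ZMod 117) =
      fun (a : Fin n₁) (b : Fin n₂) => s (351 * (a : ℕ) + 235 * (b : ℕ) + m) := by
  funext a b
  show foldArr s _ _ = _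
  rw [← fold_cast hs]
  have e1 : (m : ZMod 5) + ((a : ℕ) : ZMod 5) =
      ((351 * (a : ℕ) + 235 * (b : ℕ) + m : ℕ) : ZMod 5) := by
    rw [← Nat.cast_add, ZMod.natCast_eq_natCast_iff']; omega
  have e2 : (m : ZMod 117) + ((b : ℕ) : ZMod 117) =
      ((351 * (a : ℕ) + 235 * (b : ℕ) + m : ℕ) : ZMod 117) := by
    rw [← Nat.cast_add, ZMod.natCast_eq_natCast_iff']; omega
  rw [e1, e2]

/-- Existence and uniqueness of sequences with prescribed initial segment. -/
theorem exists_init {f : (ZMod 2)[X]} (hmonic : f.Monic) (hdeg : f.natDegree = 12)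
    (x : Fin 12 → ZMod 2) : ∃ s, Generates f s ∧ ∀ j : Fin 12, s j = x j := by
  let E : LinearRecurrence (ZMod 2) := ⟨12, fun i => f.coeff i⟩
  refine ⟨E.mkSol x, ?_, fun j => E.mkSol_eq_init x j⟩
  intro i
  have h := E.is_sol_mkSol x i
  have h2 : E.mkSol x (i + 12) = ∑ j : Fin 12, f.coeff j * E.mkSol x (i + j) := h
  have hc : f.coeff 12 = 1 := by
    rw [← hdeg]; exact hmonic.coeff_natDegree
  rw [hdeg, Finset.sum_range_succ, hc, one_mul, h2, Finset.sum_range]
  exact CharTwo.add_self_eq_zero _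

theorem eq_of_init {f : (ZMod 2)[X]} (hmonic : f.Monic) (hdeg : f.natDegree = 12)
    {s : ℕ → ZMod 2} (hs : Generates f s) (h0 : ∀ j < 12, s j = 0) : s = 0 := by
  funext n
  induction n using Nat.strong_induction_on with
  | _ n ih =>
    by_cases hn : n < 12
    · exact h0 n hn
    · have h := hs (n - 12)
      have hc : f.coeff 12 = 1 := by
        rw [← hdeg]; exact hmonic.coeff_natDegree
      rw [hdeg, Finset.sum_range_succ, hc, one_mul, Finset.sum_eq_zero, zero_add] at h
      · rw [show n - 12 + 12 = n by omega] at h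
        exact h
      · intro j hj
        have hj' := Finset.mem_range.1 hj
        rw [ih (n - 12 + j) (by omega)]
        simp

/-- The general criterion. -/
theorem prac_of {f : (ZMod 2)[X]} (hirr : Irreducible f) (hmonic : f.Monic)
    (hdeg : f.natDegree = 12) (hord : ∀ m, f ∣ X ^ m - 1 ↔ 585 ∣ m)
    (hwin : ∀ s, Generates f s → (∀ a < 3, ∀ b < 4, s (351 * a + 235 * b) = 0) →
      ∀ j < 12, s j = 0)
    (C : Set (Arr 5 117)) (hC : IsFoldingOf 5 117 f C) : IsPRAC 5 117 3 4 C := by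
  obtain ⟨S, hS, hrep, rfl⟩ := hC
  have hper : ∀ s, Generates f s → ∀ i, s (i + 585) = s i := fun s hs =>
    periodic_of_dvd ((hord 585).2 dvd_rfl) hs
  have hzero : ∀ s, Generates f s → (∀ a < 3, ∀ b < 4, s (351 * a + 235 * b) = 0) → s = 0 :=
    fun s hs h => eq_of_init hmonic hdeg hs (hwin s hs h)
  have hsub : ∀ s t, Generates f s → Generates f t →
      (∀ a < 3, ∀ b < 4, s (351 * a + 235 * b) = t (351 * a + 235 * b)) → s = t := by
    intro s t hs ht h
    have h1 : s + t = 0 := by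
      apply hzero _ (generates_add hs ht)
      intro a ha b hb
      rw [Pi.add_apply, h a ha b hb]
      exact CharTwo.add_self_eq_zero _
    funext i
    exact CharTwo.add_eq_zero.1 (congrFun h1 i)
  -- two shifts of a nonzero sequence
  have hshift : ∀ s, Generates f s → s ≠ 0 → ∀ k l : ℕ, k ≤ l →
      (∀ i, s (i + k) = s (i + l)) → 585 ∣ l - k := by
    intro s hs hs0 k l hkl h
    rw [← hord]
    apply dvd_of_shift_eq hirr hs hs0
    intro i
    -- use periodicity to go back
    have h1 := h (i + 585 * k - k)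
    have hk : k ≤ 585 * k := by omega
    rw [show i + 585 * k - k + k = i + 585 * k by omega,
      show i + 585 * k - k + l = i + (l - k) + 585 * k by omega,
      periodic_mul (hper s hs), periodic_mul (hper s hs)] at h1
    exact h1.symm
  refine ⟨by norm_num, ?_, ?_⟩
  · intro M hM
    -- a sequence with this window
    have hex : ∃ s, Generates f s ∧ ∀ (a : Fin 3) (b : Fin 4), s (351 * a + 235 * b) = M a b := by
      choose g hg hgi using fun x => exists_init hmonic hdeg x
      let Φ : (Fin 12 → ZMod 2) → (Fin 3 → Fin 4 → ZMod 2) :=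
        fun x a b => g x (351 * a + 235 * b)
      have hinj : Function.Injective Φ := by
        intro x y hxy
        have : g x = g y := by
          apply hsub _ _ (hg x) (hg y)
          intro a ha b hb
          exact congrFun (congrFun hxy ⟨a, ha⟩) ⟨b, hb⟩
        funext j
        rw [← hgi x j, ← hgi y j, this]
      have hbij : Function.Bijective Φ := by
        rw [Fintype.bijective_iff_injective_and_card]
        refine ⟨hinj, ?_⟩
        simp [Fintype.card_pi, ZMod.card]
      obtain ⟨x, hx⟩ := hbij.2 M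
      exact ⟨g x, hg x, fun a b => congrFun (congrFun hx a) b⟩
    obtain ⟨s, hs, hsM⟩ := hex
    have hs0 : s ≠ 0 := by
      rintro rfl
      apply hM
      funext a b
      rw [← hsM]; rfl
    obtain ⟨t, ⟨htS, k, hk⟩, huniq⟩ := hrep s hs0 hs
    -- `s i = t (i + l)` for `l = 585 k - k`
    have hback : ∀ i, s i = t (i + (585 * k - k)) := by
      intro i
      rw [hk, show i + (585 * k - k) + k = i + 585 * k by omega, periodic_mul (hper s hs)]
    have ht := hS t htS
    refine ⟨(foldArr t, ((585 * k - k : ℕ) : ZMod 5), ((585 * k - k : ℕ) : ZMod 117)),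
      ⟨⟨t, htS, (isFold_iff (hper t ht.2) _).2 rfl⟩, ?_⟩, ?_⟩
    · rw [window_fold (hper t ht.2)]
      funext a b
      rw [← hback, hsM]
    · rintro ⟨A, u, v⟩ ⟨⟨t', ht'S, hA⟩, hw⟩
      have ht' := hS t' ht'S
      rw [isFold_iff (hper t' ht'.2)] at hA
      subst hA
      obtain ⟨m, _, rfl, rfl⟩ := exists_cast u v
      have hw' : window 3 4 (foldArr t') (m : ZMod 5) (m : ZMod 117) = M := hw
      rw [window_fold (hper t' ht'.2)] at hw'
      have e : (fun i => t' (i + m)) = s := by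
        apply hsub _ _ (generates_shift ht'.2 m) hs
        intro a ha b hb
        have h1 := congrFun (congrFun hw' ⟨a, ha⟩) ⟨b, hb⟩
        have h2 := hsM ⟨a, ha⟩ ⟨b, hb⟩
        show t' _ = _
        rw [h2]
        exact h1
      have ett : t' = t := by
        apply huniq
        refine ⟨ht'S, 585 * m - m, fun i => ?_⟩
        rw [← e]
        show _ = t' _
        rw [show i + (585 * m - m) + m = i + 585 * m by omega, periodic_mul (hper t' ht'.2)]
      subst ett
      -- compare the two shifts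
      have hcmp : ∀ i, t' (i + m) = t' (i + (585 * k - k)) := by
        intro i
        rw [← hback]
        exact congrFun e i
      have hmod : m % 585 = (585 * k - k) % 585 := by
        rcases le_total m (585 * k - k) with hle | hle
        · have := hshift t' ht'.2 ht'.1 _ _ hle hcmp
          omega
        · have := hshift t' ht'.2 ht'.1 _ _ hle (fun i => (hcmp i).symm)
          omega
      have e5 : (m : ZMod 5) = ((585 * k - k : ℕ) : ZMod 5) := by
        rw [ZMod.natCast_eq_natCast_iff']; omega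
      have e117 : (m : ZMod 117) = ((585 * k - k : ℕ) : ZMod 117) := by
        rw [ZMod.natCast_eq_natCast_iff']; omega
      rw [e5, e117]
  · rintro A ⟨s, hsS, hA⟩ B hB
    have hs := hS s hsS
    rw [isFold_iff (hper s hs.2)] at hA
    subst hA
    -- `B` is the folding of a sequence `t ≠ s`
    have hBt : ∃ t, Generates f t ∧ t ≠ s ∧ B = foldArr t := by
      rcases hB with ⟨⟨t, htS, hBt⟩, hne⟩ | ⟨u, v, huv, hBs⟩
      · have ht := hS t htS
        rw [isFold_iff (hper t ht.2)] at hBt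
        refine ⟨t, ht.2, ?_, hBt⟩
        rintro rfl
        exact hne hBt.symm
      · obtain ⟨m, hm, rfl, rfl⟩ := exists_cast u v
        refine ⟨fun i => s (i + m), generates_shift hs.2 m, ?_, ?_⟩
        · intro heq
          have h585 : 585 ∣ m - 0 := by
            apply hshift s hs.2 hs.1 0 m (Nat.zero_le _)
            intro i
            exact (congrFun heq i).symm
          have hm0 : m = 0 := by omega
          apply huv
          rw [hm0]; simp
        · rw [hBs, shift_fold (hper s hs.2)]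
    obtain ⟨t, ht, hts, rfl⟩ := hBt
    have hsum : Generates f (s + t) := generates_add hs.2 ht
    have hsum0 : s + t ≠ 0 := by
      intro h0
      apply hts
      funext i
      exact (CharTwo.add_eq_zero.1 (congrFun h0 i)).symm
    obtain ⟨w, ⟨hwS, k, hk⟩, _⟩ := hrep _ hsum0 hsum
    have hw := hS w hwS
    refine ⟨foldArr w, ⟨w, hwS, (isFold_iff (hper w hw.2) _).2 rfl⟩,
      ((585 * k - k : ℕ) : ZMod 5), ((585 * k - k : ℕ) : ZMod 117), ?_⟩
    rw [shift_fold (hper w hw.2)]
    have : (fun i => w (i + (585 * k - k))) = s + t := by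
      funext i
      rw [hk, show i + (585 * k - k) + k = i + 585 * k by omega, periodic_mul (hper _ hsum)]
    rw [this]
    rfl

/-! ### Window certificates -/

/-- The sum of the `(351 a + 235 b)`-th powers of `X` over a list of pairs, modulo `f`. -/
def comb (f d : ℕ) (l : List (ℕ × ℕ)) : ℕ :=
  l.foldr (fun p acc => (step f d)^[351 * p.1 + 235 * p.2] 1 ^^^ acc) 0

theorem comb_spec {R : Type*} [CommRing R] (φ : (ZMod 2)[X] →+* R) {f d : ℕ}
    (hf : φ (P f) = 0) (l : List (ℕ × ℕ)) :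
    φ (P (comb f d l)) = φ ((l.map fun p => (X : (ZMod 2)[X]) ^ (351 * p.1 + 235 * p.2)).sum) := by
  induction l with
  | nil => simp [comb, P_zero]
  | cons p l ih =>
    have : comb f d (p :: l) = (step f d)^[351 * p.1 + 235 * p.2] 1 ^^^ comb f d l := rfl
    rw [this, P_xor, map_add, ih, iter_one_spec φ hf, List.map_cons, List.sum_cons, map_add,
      map_pow]

theorem dvd_comb (f d : ℕ) (l : List (ℕ × ℕ)) :
    P f ∣ (l.map fun p => (X : (ZMod 2)[X]) ^ (351 * p.1 + 235 * p.2)).sum - P (comb f d l) := by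
  rw [← AdjoinRoot.mk_eq_zero, map_sub,
    comb_spec (AdjoinRoot.mk (P f)) (AdjoinRoot.mk_eq_zero.2 dvd_rfl), sub_self]

theorem aeval_list (l : List (ℕ × ℕ)) (s : ℕ → ZMod 2) (i : ℕ) :
    aeval T ((l.map fun p => (X : (ZMod 2)[X]) ^ (351 * p.1 + 235 * p.2)).sum) s i =
      (l.map fun p => s (i + (351 * p.1 + 235 * p.2))).sum := by
  induction l with
  | nil => simp
  | cons p l ih =>
    rw [List.map_cons, List.sum_cons, List.map_cons, List.sum_cons, map_add, LinearMap.add_apply,
      Pi.add_apply, ih, aeval_X_pow_apply]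

theorem P_two_pow (j : ℕ) : P (2 ^ j) = X ^ j := by
  induction j with
  | zero => simp [P_one]
  | succ j ih => rw [pow_succ', P_two_mul, ih, pow_succ']

theorem window_cert {f d : ℕ} {l : List (ℕ × ℕ)} {j : ℕ} (h : comb f d l = 2 ^ j)
    {s : ℕ → ZMod 2} (hs : Generates (P f) s)
    (h0 : ∀ p ∈ l, s (351 * p.1 + 235 * p.2) = 0) : s j = 0 := by
  have h1 := congrFun (aeval_of_dvd (dvd_comb f d l) hs) 0
  rw [map_sub, LinearMap.sub_apply, Pi.sub_apply, aeval_list, h, P_two_pow,
    aeval_X_pow_apply, zero_add] at h1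
  have h2 : (l.map fun p => s (0 + (351 * p.1 + 235 * p.2))).sum = 0 := by
    apply List.sum_eq_zero
    intro x hx
    obtain ⟨p, hp, rfl⟩ := List.mem_map.1 hx
    rw [zero_add]; exact h0 p hp
  rw [h2] at h1
  have h3 : (0 : ZMod 2) - s j = 0 := h1
  rw [zero_sub, neg_eq_zero] at h3
  exact h3

/-- Decode a bit mask into a list of positions of the `3 × 4` window. -/
def dec (m : ℕ) : List (ℕ × ℕ) :=
  ((List.range 12).filter (m.testBit ·)).map fun i => (i / 4, i % 4)

theorem window_of_cert {f : ℕ} {cs : List ℕ}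
    (h : ∀ j < 12, comb f 12 (dec (cs.getD j 0)) = 2 ^ j) (s : ℕ → ZMod 2)
    (hs : Generates (P f) s) (h0 : ∀ a < 3, ∀ b < 4, s (351 * a + 235 * b) = 0) :
    ∀ j < 12, s j = 0 := by
  intro j hj
  apply window_cert (h j hj) hs
  intro p hp
  obtain ⟨i, hi, rfl⟩ := List.mem_map.1 hp
  have hi' := List.mem_range.1 (List.mem_filter.1 hi).1
  exact h0 _ (by show i / 4 < 3; omega) _ (by show i % 4 < 4; omega)

theorem P_f1 : P 5227 = X ^ 12 + X ^ 10 + X ^ 6 + X ^ 5 + X ^ 3 + X + 1 := by
  have h2 : P 2 = X * P 1 := P_two_mul 1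
  have h5 : P 5 = 1 + X * P 2 := P_two_mul_add_one 2
  have h10 : P 10 = X * P 5 := P_two_mul 5
  have h20 : P 20 = X * P 10 := P_two_mul 10
  have h40 : P 40 = X * P 20 := P_two_mul 20
  have h81 : P 81 = 1 + X * P 40 := P_two_mul_add_one 40
  have h163 : P 163 = 1 + X * P 81 := P_two_mul_add_one 81
  have h326 : P 326 = X * P 163 := P_two_mul 163
  have h653 : P 653 = 1 + X * P 326 := P_two_mul_add_one 326
  have h1306 : P 1306 = X * P 653 := P_two_mul 653
  have h2613 : P 2613 = 1 + X * P 1306 := P_two_mul_add_one 1306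
  have h5227 : P 5227 = 1 + X * P 2613 := P_two_mul_add_one 2613
  rw [h5227, h2613, h1306, h653, h326, h163, h81, h40, h20, h10, h5, h2, P_one]
  ring

theorem P_f2 : P 6179 = X ^ 12 + X ^ 11 + X ^ 5 + X + 1 := by
  have h3 : P 3 = 1 + X * P 1 := P_two_mul_add_one 1
  have h6 : P 6 = X * P 3 := P_two_mul 3
  have h12 : P 12 = X * P 6 := P_two_mul 6
  have h24 : P 24 = X * P 12 := P_two_mul 12
  have h48 : P 48 = X * P 24 := P_two_mul 24
  have h96 : P 96 = X * P 48 := P_two_mul 48
  have h193 : P 193 = 1 + X * P 96 := P_two_mul_add_one 96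
  have h386 : P 386 = X * P 193 := P_two_mul 193
  have h772 : P 772 = X * P 386 := P_two_mul 386
  have h1544 : P 1544 = X * P 772 := P_two_mul 772
  have h3089 : P 3089 = 1 + X * P 1544 := P_two_mul_add_one 1544
  have h6179 : P 6179 = 1 + X * P 3089 := P_two_mul_add_one 3089
  rw [h6179, h3089, h1544, h772, h386, h193, h96, h48, h24, h12, h6, h3, P_one]
  ring

theorem monic1 : (P 5227).Monic := by rw [P_f1]; monicity!
theorem monic2 : (P 6179).Monic := by rw [P_f2]; monicity!
theorem natDegree1 : (P 5227).natDegree = 12 := by rw [P_f1]; compute_degree!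
theorem natDegree2 : (P 6179).natDegree = 12 := by rw [P_f2]; compute_degree!

theorem main1 : Irreducible (P 5227) ∧ ∀ m, P 5227 ∣ X ^ m - 1 ↔ 585 ∣ m :=
  irreducible_and_order 5227 monic1 natDegree1 (by decide +kernel) 2744 1114 51
    (by decide +kernel) (by decide +kernel) (by decide +kernel) (by decide +kernel)
    (by decide +kernel) (by decide +kernel)

theorem main2 : Irreducible (P 6179) ∧ ∀ m, P 6179 ∣ X ^ m - 1 ↔ 585 ∣ m :=
  irreducible_and_order 6179 monic2 natDegree2 (by decide +kernel) 766 333 1517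
    (by decide +kernel) (by decide +kernel) (by decide +kernel) (by decide +kernel)
    (by decide +kernel) (by decide +kernel)

theorem cert1 : ∀ j < 12, comb 5227 12
    (dec ([1, 32, 1024, 1043, 1651, 2008, 1910, 1773, 67, 2144, 1062, 211].getD j 0)) = 2 ^ j := by
  decide +kernel

theorem cert2 : ∀ j < 12, comb 6179 12
    (dec ([1, 32, 1024, 2633, 1069, 3654, 3627, 548, 371, 632, 2908, 2709].getD j 0)) = 2 ^ j := by
  decide +kernel

theorem prac1 (C : Set (Arr 5 117)) (hC : IsFoldingOf 5 117 (P 5227) C) :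
    IsPRAC 5 117 3 4 C :=
  prac_of main1.1 monic1 natDegree1 main1.2 (window_of_cert cert1) C hC

theorem prac2 (C : Set (Arr 5 117)) (hC : IsFoldingOf 5 117 (P 6179) C) :
    IsPRAC 5 117 3 4 C :=
  prac_of main2.1 monic2 natDegree2 main2.2 (window_of_cert cert2) C hC

theorem hasExponent_of {f : (ZMod 2)[X]} (h : ∀ m, f ∣ X ^ m - 1 ↔ 585 ∣ m) :
    HasExponent f (5 * 117) := by
  constructor
  · exact ⟨by norm_num, (h _).2 (by norm_num)⟩
  · rintro m ⟨hm1, hm⟩
    have := (h m).1 hm
    omega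

theorem ne12 : P 5227 ≠ P 6179 := by
  rw [P_f1, P_f2]
  intro h
  have := congrArg (fun p => coeff p 11) h
  simp [coeff_X_pow, coeff_X, coeff_one] at this

theorem coprime12 : IsCoprime (P 5227) (P 6179) := by
  rw [main1.1.coprime_iff_not_dvd]
  intro h
  have h1 : Associated (P 5227) (P 6179) :=
    (main1.1.dvd_irreducible_iff_associated main2.1).1 h
  exact ne12 (eq_of_monic_of_associated monic1 monic2 h1)

/-- positions of the dependency in the `3 × 8` window -/
def dep : List (ℕ × ℕ) :=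
  [(0, 0), (0, 3), (0, 5), (0, 6), (0, 7), (1, 2), (1, 3), (1, 7), (2, 0), (2, 2), (2, 3),
    (2, 5), (2, 6)]

theorem dep1 : comb 5227 12 dep = 0 := by decide +kernel
theorem dep2 : comb 6179 12 dep = 0 := by decide +kernel

theorem dvd_of_comb_eq_zero {f d : ℕ} {l : List (ℕ × ℕ)} (h : comb f d l = 0) :
    P f ∣ (l.map fun p => (X : (ZMod 2)[X]) ^ (351 * p.1 + 235 * p.2)).sum := by
  have := dvd_comb f d l
  rwa [h, P_zero, sub_zero] at this

theorem dvd_dep : P 5227 * P 6179 ∣
    (dep.map fun p => (X : (ZMod 2)[X]) ^ (351 * p.1 + 235 * p.2)).sum :=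
  coprime12.mul_dvd (dvd_of_comb_eq_zero dep1) (dvd_of_comb_eq_zero dep2)

theorem dvd_X585 : P 5227 * P 6179 ∣ X ^ 585 - 1 :=
  coprime12.mul_dvd ((main1.2 585).2 dvd_rfl) ((main2.2 585).2 dvd_rfl)

theorem not_prac (C : Set (Arr 5 117)) (hC : IsFoldingOf 5 117 (P 5227 * P 6179) C) :
    ¬ IsPRAC 5 117 3 8 C := by
  intro hprac
  obtain ⟨S, hS, _, rfl⟩ := hC
  let M : Fin 3 → Fin 8 → ZMod 2 := fun a b => if (a : ℕ) = 0 ∧ (b : ℕ) = 0 then 1 else 0
  have hM : M ≠ 0 := by
    intro h
    have := congrFun (congrFun h 0) 0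
    simp [M] at this
  obtain ⟨⟨A, u, v⟩, ⟨⟨s, hsS, hA⟩, hw⟩, _⟩ := hprac.window_once M hM
  have hs := hS s hsS
  have hper : ∀ i, s (i + 585) = s i := periodic_of_dvd dvd_X585 hs.2
  rw [isFold_iff hper] at hA
  subst hA
  obtain ⟨m, _, rfl, rfl⟩ := exists_cast u v
  have hw' : window 3 8 (foldArr s) (m : ZMod 5) (m : ZMod 117) = M := hw
  rw [window_fold hper] at hw'
  have hval : ∀ p ∈ dep, s (m + (351 * p.1 + 235 * p.2)) = if p.1 = 0 ∧ p.2 = 0 then 1 else 0 := by
    intro p hp
    have hb : p.1 < 3 ∧ p.2 < 8 := by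
      revert p; decide
    have h1 := congrFun (congrFun hw' ⟨p.1, hb.1⟩) ⟨p.2, hb.2⟩
    rw [show m + (351 * p.1 + 235 * p.2) = 351 * p.1 + 235 * p.2 + m by omega]
    exact h1
  have h1 := congrFun (aeval_of_dvd dvd_dep hs.2) m
  rw [aeval_list, List.map_congr_left hval] at h1
  have h2 : (dep.map fun p => if p.1 = 0 ∧ p.2 = 0 then (1 : ZMod 2) else 0).sum = 0 := h1
  exact absurd h2 (by decide)

/-! ### The statement -/

/-- The conjecture fails for `(r₁, r₂; n₁, n₂) = (5, 117; 3, 4)` and `k = 2`: both `f₁` and `f₂`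
satisfy all the hypotheses, but folding the sequences generated by `f₁ * f₂` does not give a
`(5, 117; 3, 8)`-PRAC, whatever representatives of the shift classes are chosen. -/
theorem result :
    ∃ (r₁ r₂ n₁ n₂ : ℕ) (f₁ f₂ : (ZMod 2)[X]),
      r₁ = 5 ∧ r₂ = 117 ∧ n₁ = 3 ∧ n₂ = 4 ∧
      f₁ = X ^ 12 + X ^ 10 + X ^ 6 + X ^ 5 + X ^ 3 + X + 1 ∧
      f₂ = X ^ 12 + X ^ 11 + X ^ 5 + X + 1 ∧
      Nat.Coprime r₁ r₂ ∧ n₁ < r₁ ∧ r₁ < 2 * n₁ ∧
      f₁ ≠ f₂ ∧ Irreducible f₁ ∧ Irreducible f₂ ∧
      f₁.natDegree = n₁ * n₂ ∧ f₂.natDegree = n₁ * n₂ ∧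
      HasExponent f₁ (r₁ * r₂) ∧ HasExponent f₂ (r₁ * r₂) ∧
      (∃ C, IsFoldingOf r₁ r₂ f₁ C) ∧ (∃ C, IsFoldingOf r₁ r₂ f₂ C) ∧
      (∃ C, IsFoldingOf r₁ r₂ (f₁ * f₂) C) ∧
      (∀ C, IsFoldingOf r₁ r₂ f₁ C → IsPRAC r₁ r₂ n₁ n₂ C) ∧
      (∀ C, IsFoldingOf r₁ r₂ f₂ C → IsPRAC r₁ r₂ n₁ n₂ C) ∧
      (∀ C, IsFoldingOf r₁ r₂ (f₁ * f₂) C → ¬ IsPRAC r₁ r₂ n₁ (2 * n₂) C) := by
  refine ⟨5, 117, 3, 4, P 5227, P 6179, rfl, rfl, rfl, rfl, P_f1, P_f2, by norm_num,
    by norm_num, by norm_num, ne12, main1.1, main2.1, natDegree1, natDegree2,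
    hasExponent_of main1.2, hasExponent_of main2.2,
    exists_folding 5 117 (by norm_num) ((main1.2 585).2 dvd_rfl),
    exists_folding 5 117 (by norm_num) ((main2.2 585).2 dvd_rfl),
    exists_folding 5 117 (by norm_num) dvd_X585, prac1, prac2, fun C hC => ?_⟩
  exact not_prac C hC

end Pool.Agent.Results.MP_2c8f22_co.FoldingDisproof
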